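import Pool.Agent.N188.LD.Main

set_option autoImplicit false

/-!
# The strict inequality for density greater than three quarters
-/

namespace Pool.Agent.N188.LD

open Finset Real

variable {α : Type*} [DecidableEq α]

theorem small_part_lt {n N : ℝ} (hn : 0 < n) (h4 : 4 * n < N) :
    2 * n < n * (logb 2 N - logb 2 n) := by
  have h1 : logb 2 (4 * n) < logb 2 N := logb_lt_logb (by norm_num) (by positivity) h4
  have h2 : logb 2 (4 * n) = 2 + logb 2 n := by
    rw [logb_mul (by norm_num) hn.ne']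
    congr 1
    rw [show (4 : ℝ) = 2 ^ (2 : ℝ) by norm_num, logb_rpow (by norm_num) (by norm_num)]
  rw [h2] at h1
  nlinarith

/-- strict form of `avg_half` -/
theorem avg_half_lt {s : Finset α} {H G : Finset (Finset α)}
    (hH : ∀ A ∈ H, A ⊆ s) (hU : ∀ A ∈ H, ∀ B ∈ H, A ∪ B ∈ H)
    (hG : ∀ B ∈ G, B ⊆ s) (ha : ∀ A ∈ H, ∀ B ∈ G, A ∪ B ∈ H)
    (h34 : 3 * 2 ^ s.card < 4 * G.card) (hne : H.Nonempty) (hnp : H ≠ s.powerset) :
    (H.card : ℝ) * s.card < ∑ A ∈ H, 2 * (A.card : ℝ) := by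
  have h1 := boundary s H hH
  have h2 := upper_le hH hU
  have h3 := absorb hH hG ha
  have hN : (0 : ℝ) < 2 ^ s.card := by positivity
  have hHN : (H.card : ℝ) < 2 ^ s.card := by
    have h4 : H ⊆ s.powerset := fun A hA => mem_powerset.2 (hH A hA)
    have h5 := card_lt_card (h4.ssubset_of_ne hnp)
    rw [card_powerset] at h5
    exact_mod_cast h5
  have hH0 : (0 : ℝ) < H.card := by exact_mod_cast hne.card_pos
  have h2' : (upper s H : ℝ) + H.card ≤ (upIn s H).card := by exact_mod_cast h2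
  have h5 := upIn_le (s := s) H
  have h3' : (G.card : ℝ) * (upIn s H).card ≤ H.card * 2 ^ s.card := by exact_mod_cast h3
  have h34' : (3 : ℝ) * 2 ^ s.card < 4 * G.card := by exact_mod_cast h34
  have hup : (0 : ℝ) < (upIn s H).card := by
    have := (Nat.cast_nonneg (upper s H) : (0 : ℝ) ≤ _)
    linarith
  have h6 : 3 * ((upIn s H).card : ℝ) < 4 * H.card := by
    have h7 : (3 * 2 ^ s.card : ℝ) * (upIn s H).card < 4 * G.card * (upIn s H).card :=
      mul_lt_mul_of_pos_right h34' hup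
    have h8 : (2 ^ s.card : ℝ) * (3 * (upIn s H).card) < 2 ^ s.card * (4 * H.card) := by
      nlinarith
    exact lt_of_mul_lt_mul_left h8 hN.le
  have e1 : ∑ A ∈ H, (2 * (A.card : ℝ) - s.card) =
      ∑ A ∈ H, 2 * (A.card : ℝ) - H.card * s.card := by
    rw [sum_sub_distrib, sum_const, nsmul_eq_mul]
  rw [e1] at h1
  set n := (2 : ℝ) ^ s.card - H.card with hn
  have h : 0 < n := by linarith
  have hD1 : (upper s H : ℝ) ≤ n := by linarith
  have hD2 : 3 * (upper s H : ℝ) < 2 ^ s.card - n := by linarith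
  have e2 : logb 2 ((2 : ℝ) ^ s.card) = s.card := by
    rw [logb_pow, logb_self_eq_one (by norm_num), mul_one]
  rcases lt_or_ge (4 * n) (2 ^ s.card) with h4 | h4
  · have h7 := small_part_lt h h4
    rw [e2] at h7
    linarith
  · have h7 := quarter h (show n ≤ 2 ^ s.card by linarith) h4
    rw [e2] at h7
    linarith

theorem fib_sum_lt (F : Finset (Finset α)) (S : Finset α) (c : ℝ)
    (h : ∀ T, ((fib F S T).card : ℝ) * c ≤ ∑ A ∈ fib F S T, 2 * (A.card : ℝ))
    (h' : ∃ T, ((fib F S T).card : ℝ) * c < ∑ A ∈ fib F S T, 2 * (A.card : ℝ)) :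
    (F.card : ℝ) * c < ∑ A ∈ F, 2 * ((A ∩ S).card : ℝ) := by
  have hm : ∀ A ∈ F, (fun A => A \ S) A ∈ F.image (fun A => A \ S) :=
    fun A hA => mem_image_of_mem _ hA
  have e1 : ∀ T, (fib F S T).card = (F.filter (fun A => A \ S = T)).card :=
    fun T => card_image_of_injOn (fib_inj F S T)
  have e2 : ∀ T, ∑ A ∈ fib F S T, 2 * (A.card : ℝ) =
      ∑ A ∈ F.filter (fun A => A \ S = T), 2 * ((A ∩ S).card : ℝ) := by
    intro T
    unfold fib
    exact sum_image (fib_inj F S T)
  rw [card_eq_sum_card_fiberwise hm, ← sum_fiberwise_of_maps_to hm]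
  push_cast
  rw [sum_mul]
  obtain ⟨T, hT⟩ := h'
  apply sum_lt_sum
  · intro T _
    have h1 := h T
    rw [e1, e2] at h1
    exact h1
  · refine ⟨T, ?_, ?_⟩
    · by_contra hcon
      have h3 : fib F S T = ∅ := by
        unfold fib
        rw [image_eq_empty, filter_eq_empty_iff]
        intro A hA hAT
        exact hcon (mem_image.2 ⟨A, hA, hAT⟩)
      rw [h3] at hT
      simp at hT
    · rw [e1, e2] at hT
      exact hT

/-- Either the traces on `S` have on average more than `|S| / 2` elements, or the elements of `S`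
can be added to and removed from all members of `F`. -/
theorem local_dichotomy {F G : Finset (Finset α)} {S : Finset α}
    (hF : ∀ A ∈ F, ∀ B ∈ F, A ∪ B ∈ F) (hG : ∀ B ∈ G, B ⊆ S)
    (ha : ∀ A ∈ F, ∀ B ∈ G, A ∪ B ∈ F) (h34 : 3 * 2 ^ S.card < 4 * G.card) :
    ((F.card : ℝ) * S.card < ∑ A ∈ F, 2 * ((A ∩ S).card : ℝ)) ∨
      (∀ A ∈ F, ∀ B, B ⊆ S → A ∪ B ∈ F ∧ A \ B ∈ F) := by
  by_cases hall : ∀ T, (fib F S T).Nonempty → fib F S T = S.powerset
  · right
    intro A hA B hB
    have h1 : A ∩ S ∈ fib F S (A \ S) := mem_fib.2 ⟨A, hA, rfl, rfl⟩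
    have h2 := hall (A \ S) ⟨_, h1⟩
    have h3 : ∀ C, C ⊆ S → (A \ S) ∪ C ∈ F := by
      intro C hC
      have h4 : C ∈ fib F S (A \ S) := by rw [h2, mem_powerset]; exact hC
      rw [mem_fib] at h4
      obtain ⟨A', hA', h5, h6⟩ := h4
      rw [← h5, ← h6, sdiff_union_inter]
      exact hA'
    constructor
    · have h4 := h3 (A ∩ S ∪ B) (union_subset inter_subset_right hB)
      rwa [← union_assoc, sdiff_union_inter] at h4
    · have h4 := h3 ((A ∩ S) \ B) (sdiff_subset.trans inter_subset_right)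
      have h5 : A \ S ∪ (A ∩ S) \ B = A \ B := by
        ext y
        rw [mem_union, mem_sdiff, mem_sdiff, mem_inter, mem_sdiff]
        constructor
        · rintro (⟨h6, h7⟩ | ⟨⟨h6, _⟩, h7⟩)
          · exact ⟨h6, fun h => h7 (hB h)⟩
          · exact ⟨h6, h7⟩
        · rintro ⟨h6, h7⟩
          by_cases hyS : y ∈ S
          · right; exact ⟨⟨h6, hyS⟩, h7⟩
          · left; exact ⟨h6, hyS⟩
      rwa [h5] at h4
  · left
    push Not at hall
    obtain ⟨T, hT1, hT2⟩ := hall
    exact fib_sum_lt F S _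
      (fun T => avg_half (fib_sub T) (fib_union hF T) hG (fib_absorb hG ha T) h34.le)
      ⟨T, avg_half_lt (fib_sub T) (fib_union hF T) hG (fib_absorb hG ha T) h34 hT1 hT2⟩

end Pool.Agent.N188.LD
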