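import Mathlib

set_option autoImplicit false

/-!
# A correlation inequality for joins of families of sets

For families `X`, `Y` of subsets of a finite set `s` let `join X Y` be the family of the unions
`A ∪ B`, `A ∈ X`, `B ∈ Y`, and let `upIn s Y` be the family of the subsets of `s` containing a member
of `Y`. Then `|X| |upIn s Y| ≤ 2 ^ |s| |join X Y|`.

Proof by induction on `s`, with one step of up-compression of `X` in the new direction.
-/

namespace Pool.Agent.N188.LD

open Finset

variable {α : Type*} [DecidableEq α]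

/-- the family of the unions of a member of `X` and a member of `Y` -/
def join (X Y : Finset (Finset α)) : Finset (Finset α) := image₂ (fun A B => A ∪ B) X Y

/-- the subsets of `s` containing a member of `Y` -/
def upIn (s : Finset α) (Y : Finset (Finset α)) : Finset (Finset α) :=
  s.powerset.filter (fun C => ∃ B ∈ Y, B ⊆ C)

theorem mem_join {X Y : Finset (Finset α)} {C : Finset α} :
    C ∈ join X Y ↔ ∃ A ∈ X, ∃ B ∈ Y, A ∪ B = C := by
  unfold join; rw [mem_image₂]

theorem mem_upIn {s : Finset α} {Y : Finset (Finset α)} {C : Finset α} :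
    C ∈ upIn s Y ↔ C ⊆ s ∧ ∃ B ∈ Y, B ⊆ C := by
  unfold upIn; rw [mem_filter, mem_powerset]

theorem card_slices (x : α) (X : Finset (Finset α)) :
    (X.nonMemberSubfamily x).card + (X.memberSubfamily x).card = X.card := by
  rw [add_comm]; exact card_memberSubfamily_add_card_nonMemberSubfamily x X

theorem sub_lo {x : α} {s : Finset α} {X : Finset (Finset α)} (h : ∀ A ∈ X, A ⊆ insert x s) :
    ∀ A ∈ X.nonMemberSubfamily x, A ⊆ s := by
  intro A hA
  rw [mem_nonMemberSubfamily] at hA
  exact (subset_insert_iff_of_notMem hA.2).1 (h A hA.1)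

theorem sub_hi {x : α} {s : Finset α} {X : Finset (Finset α)} (h : ∀ A ∈ X, A ⊆ insert x s) :
    ∀ A ∈ X.memberSubfamily x, A ⊆ s := by
  intro A hA
  rw [mem_memberSubfamily] at hA
  exact (subset_insert_iff_of_notMem hA.2).1 ((subset_insert x A).trans (h _ hA.1))

theorem upIn_mono {s : Finset α} {Y Z : Finset (Finset α)} (h : Y ⊆ Z) :
    (upIn s Y).card ≤ (upIn s Z).card := by
  apply card_le_card
  intro C hC
  rw [mem_upIn] at hC ⊢
  obtain ⟨h1, B, hB, h2⟩ := hC
  exact ⟨h1, B, h hB, h2⟩

theorem upIn_slices (x : α) (s : Finset α) (Y : Finset (Finset α)) :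
    (upIn (insert x s) Y).card ≤ (upIn s (Y.nonMemberSubfamily x)).card +
      (upIn s (Y.nonMemberSubfamily x ∪ Y.memberSubfamily x)).card := by
  rw [← card_slices x (upIn (insert x s) Y)]
  apply Nat.add_le_add
  · apply card_le_card
    intro C hC
    rw [mem_nonMemberSubfamily, mem_upIn] at hC
    obtain ⟨⟨h1, B, hB, h2⟩, h3⟩ := hC
    rw [mem_upIn]
    refine ⟨(subset_insert_iff_of_notMem h3).1 h1, B, ?_, h2⟩
    rw [mem_nonMemberSubfamily]
    exact ⟨hB, fun h => h3 (h2 h)⟩
  · apply card_le_card
    intro C hC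
    rw [mem_memberSubfamily, mem_upIn] at hC
    obtain ⟨⟨h1, B, hB, h2⟩, h3⟩ := hC
    rw [mem_upIn]
    refine ⟨(subset_insert_iff_of_notMem h3).1 ((subset_insert x C).trans h1), B.erase x, ?_, ?_⟩
    · by_cases hxB : x ∈ B
      · rw [mem_union]; right
        rw [mem_memberSubfamily, insert_erase hxB]
        exact ⟨hB, notMem_erase x B⟩
      · rw [mem_union]; left
        rw [erase_eq_of_notMem hxB, mem_nonMemberSubfamily]
        exact ⟨hB, hxB⟩
    · intro y hy
      rw [mem_erase] at hy
      have := h2 hy.2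
      rw [mem_insert] at this
      rcases this with h | h
      · exact (hy.1 h).elim
      · exact h

/-- the effect of one compression -/
theorem join_slices (x : α) (X Y : Finset (Finset α)) :
    (join (X.nonMemberSubfamily x ∩ X.memberSubfamily x) (Y.nonMemberSubfamily x)).card +
      (join (X.nonMemberSubfamily x ∪ X.memberSubfamily x)
        (Y.nonMemberSubfamily x ∪ Y.memberSubfamily x)).card ≤ (join X Y).card := by
  rw [← card_slices x (join X Y)]
  rw [← card_union_add_card_inter ((join X Y).nonMemberSubfamily x)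
    ((join X Y).memberSubfamily x), Nat.add_comm (card (_ ∪ _)) (card (_ ∩ _))]
  apply Nat.add_le_add
  · apply card_le_card
    intro C hC
    rw [mem_join] at hC
    obtain ⟨A, hA, B, hB, rfl⟩ := hC
    rw [mem_inter, mem_nonMemberSubfamily, mem_memberSubfamily] at hA
    rw [mem_nonMemberSubfamily] at hB
    rw [mem_inter, mem_nonMemberSubfamily, mem_memberSubfamily, mem_join, mem_join]
    have hx : x ∉ A ∪ B := by
      rw [mem_union]; rintro (h | h)
      · exact hA.1.2 h
      · exact hB.2 h
    refine ⟨⟨⟨A, hA.1.1, B, hB.1, rfl⟩, hx⟩, ⟨⟨insert x A, hA.2.1, B, hB.1, ?_⟩, hx⟩⟩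
    rw [insert_union]
  · apply card_le_card
    intro C hC
    rw [mem_join] at hC
    obtain ⟨A, hA, B, hB, rfl⟩ := hC
    rw [mem_union, mem_nonMemberSubfamily, mem_memberSubfamily] at hA hB
    rw [mem_union, mem_nonMemberSubfamily, mem_memberSubfamily, mem_join, mem_join]
    have hxA : x ∉ A := by rcases hA with h | h <;> exact h.2
    have hxB : x ∉ B := by rcases hB with h | h <;> exact h.2
    have hx : x ∉ A ∪ B := by
      rw [mem_union]; rintro (h | h)
      · exact hxA h
      · exact hxB h
    rcases hA with hA | hA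
    · rcases hB with hB | hB
      · left; exact ⟨⟨A, hA.1, B, hB.1, rfl⟩, hx⟩
      · right; refine ⟨⟨A, hA.1, insert x B, hB.1, ?_⟩, hx⟩
        rw [union_insert]
    · rcases hB with hB | hB
      · right; refine ⟨⟨insert x A, hA.1, B, hB.1, ?_⟩, hx⟩
        rw [insert_union]
      · right; refine ⟨⟨insert x A, hA.1, insert x B, hB.1, ?_⟩, hx⟩
        rw [insert_union, union_insert, insert_idem]

/-- The inequality `|X| |Y↑| ≤ 2 ^ |s| |X ∨ Y|`. -/
theorem key (s : Finset α) : ∀ X Y : Finset (Finset α), (∀ A ∈ X, A ⊆ s) → (∀ B ∈ Y, B ⊆ s) →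
    X.card * (upIn s Y).card ≤ (join X Y).card * 2 ^ s.card := by
  induction s using Finset.induction_on with
  | empty =>
    intro X Y hX hY
    rw [card_empty, pow_zero, mul_one]
    rcases Y.eq_empty_or_nonempty with h | ⟨B, hB⟩
    · subst h
      have : upIn (∅ : Finset α) (∅ : Finset (Finset α)) = ∅ := by
        ext C; rw [mem_upIn]; simp
      rw [this]; simp
    · have h1 : (upIn ∅ Y).card ≤ 1 := by
        refine (card_filter_le _ _).trans ?_
        simp
      have h2 : X.card ≤ (join X Y).card := by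
        apply card_le_card
        intro A hA
        rw [mem_join]
        refine ⟨A, hA, B, hB, ?_⟩
        rw [subset_empty.1 (hX A hA), subset_empty.1 (hY B hB)]
        simp
      calc X.card * (upIn ∅ Y).card ≤ X.card * 1 := Nat.mul_le_mul_left _ h1
        _ = X.card := mul_one _
        _ ≤ _ := h2
  | insert x s hx ih =>
    intro X Y hX hY
    set X0 := X.nonMemberSubfamily x with hX0
    set X1 := X.memberSubfamily x with hX1
    set Y0 := Y.nonMemberSubfamily x with hY0
    set Y1 := Y.memberSubfamily x with hY1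
    have h1 := ih (X0 ∩ X1) Y0 (fun A hA => sub_lo hX A (mem_inter.1 hA).1) (sub_lo hY)
    have h2 := ih (X0 ∪ X1) (Y0 ∪ Y1)
      (fun A hA => (mem_union.1 hA).elim (sub_lo hX A) (sub_hi hX A))
      (fun A hA => (mem_union.1 hA).elim (sub_lo hY A) (sub_hi hY A))
    have h3 := upIn_slices x s Y
    have h4 := join_slices x X Y
    have h5 : (X0 ∪ X1).card + (X0 ∩ X1).card = X.card := by
      rw [card_union_add_card_inter]; exact card_slices x X
    have h6 : (upIn s Y0).card ≤ (upIn s (Y0 ∪ Y1)).card := upIn_mono subset_union_left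
    have h7 : (X0 ∩ X1).card ≤ (X0 ∪ X1).card :=
      card_le_card (inter_subset_left.trans subset_union_left)
    rw [card_insert_of_notMem hx, pow_succ]
    set a := (X0 ∩ X1).card
    set b := (X0 ∪ X1).card
    set u := (upIn s Y0).card
    set v := (upIn s (Y0 ∪ Y1)).card
    set p := (join (X0 ∩ X1) Y0).card
    set q := (join (X0 ∪ X1) (Y0 ∪ Y1)).card
    have h8 : X.card * (upIn (insert x s) Y).card ≤ (b + a) * (u + v) := by
      rw [← h5]; exact Nat.mul_le_mul_left _ h3
    have h9 : (b + a) * (u + v) ≤ 2 * (a * u + b * v) := by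
      obtain ⟨c, hc⟩ := Nat.exists_eq_add_of_le h6
      obtain ⟨d, hd⟩ := Nat.exists_eq_add_of_le h7
      rw [hc, hd]
      nlinarith [Nat.zero_le (c * d)]
    have h10 : 2 * (a * u + b * v) ≤ 2 * ((p + q) * 2 ^ s.card) := by nlinarith
    have h11 : 2 * ((p + q) * 2 ^ s.card) ≤ (join X Y).card * (2 ^ s.card * 2) := by
      have := Nat.mul_le_mul_right (2 ^ s.card * 2) h4
      calc 2 * ((p + q) * 2 ^ s.card) = (p + q) * (2 ^ s.card * 2) := by ring
        _ ≤ _ := this
    exact h8.trans (h9.trans (h10.trans h11))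

end Pool.Agent.N188.LD
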