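import Pool.Agent.N188.LD.Mod

set_option autoImplicit false

/-!
# Union-closed families which are dense inside a set

`F` is a finite union-closed family, `S` a finite set and `G` a family of subsets of `S` with
`A ∪ B ∈ F` for `A ∈ F`, `B ∈ G`; for instance the family of all members of `F` contained in `S`.
-/

namespace Pool.Agent.N188.LD

open Finset Real

variable {α : Type*} [DecidableEq α]

/-- the traces on `S` of the members of `F` with the given part outside `S` -/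
def fib (F : Finset (Finset α)) (S T : Finset α) : Finset (Finset α) :=
  (F.filter (fun A => A \ S = T)).image (fun A => A ∩ S)

theorem mem_fib {F : Finset (Finset α)} {S T C : Finset α} :
    C ∈ fib F S T ↔ ∃ A ∈ F, A \ S = T ∧ A ∩ S = C := by
  unfold fib
  rw [mem_image]
  constructor
  · rintro ⟨A, hA, h⟩
    rw [mem_filter] at hA
    exact ⟨A, hA.1, hA.2, h⟩
  · rintro ⟨A, hA, h1, h2⟩
    exact ⟨A, mem_filter.2 ⟨hA, h1⟩, h2⟩

theorem fib_inj (F : Finset (Finset α)) (S T : Finset α) :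
    Set.InjOn (fun A => A ∩ S) (↑(F.filter (fun A => A \ S = T)) : Set (Finset α)) := by
  intro A hA B hB hAB
  rw [mem_coe, mem_filter] at hA hB
  have h : A ∩ S = B ∩ S := hAB
  rw [← sdiff_union_inter A S, ← sdiff_union_inter B S, hA.2, hB.2, h]

theorem fib_sum (F : Finset (Finset α)) (S : Finset α) (c : ℝ)
    (h : ∀ T, ((fib F S T).card : ℝ) * c ≤ ∑ A ∈ fib F S T, 2 * (A.card : ℝ)) :
    (F.card : ℝ) * c ≤ ∑ A ∈ F, 2 * ((A ∩ S).card : ℝ) := by
  have hm : ∀ A ∈ F, (fun A => A \ S) A ∈ F.image (fun A => A \ S) :=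
    fun A hA => mem_image_of_mem _ hA
  rw [card_eq_sum_card_fiberwise hm, ← sum_fiberwise_of_maps_to hm]
  push_cast
  rw [sum_mul]
  apply sum_le_sum
  intro T _
  have h1 := h T
  have e1 : (fib F S T).card = (F.filter (fun A => A \ S = T)).card :=
    card_image_of_injOn (fib_inj F S T)
  have e2 : ∑ A ∈ fib F S T, 2 * (A.card : ℝ) =
      ∑ A ∈ F.filter (fun A => A \ S = T), 2 * ((A ∩ S).card : ℝ) := by
    unfold fib
    exact sum_image (fib_inj F S T)
  rw [e1, e2] at h1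
  exact h1

section

variable {F G : Finset (Finset α)} {S : Finset α}

theorem fib_sub (T : Finset α) : ∀ A ∈ fib F S T, A ⊆ S := by
  intro A hA
  rw [mem_fib] at hA
  obtain ⟨B, _, _, rfl⟩ := hA
  exact inter_subset_right

theorem fib_union (hF : ∀ A ∈ F, ∀ B ∈ F, A ∪ B ∈ F) (T : Finset α) :
    ∀ A ∈ fib F S T, ∀ B ∈ fib F S T, A ∪ B ∈ fib F S T := by
  intro A hA B hB
  rw [mem_fib] at *
  obtain ⟨A', hA', h1, rfl⟩ := hA
  obtain ⟨B', hB', h2, rfl⟩ := hB
  refine ⟨A' ∪ B', hF A' hA' B' hB', ?_, ?_⟩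
  · rw [union_sdiff_distrib, h1, h2, union_idempotent]
  · rw [union_inter_distrib_right]

theorem fib_absorb (hG : ∀ B ∈ G, B ⊆ S) (ha : ∀ A ∈ F, ∀ B ∈ G, A ∪ B ∈ F) (T : Finset α) :
    ∀ A ∈ fib F S T, ∀ B ∈ G, A ∪ B ∈ fib F S T := by
  intro A hA B hB
  rw [mem_fib] at *
  obtain ⟨A', hA', h1, rfl⟩ := hA
  refine ⟨A' ∪ B, ha A' hA' B hB, ?_, ?_⟩
  · rw [union_sdiff_distrib, h1, sdiff_eq_empty_iff_subset.2 (hG B hB), union_empty]
  · rw [union_inter_distrib_right, inter_eq_left.2 (hG B hB)]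

/-- The traces on `S` of the members of `F` have on average at least `log₂ |G| / 2` elements. -/
theorem local_log (hF : ∀ A ∈ F, ∀ B ∈ F, A ∪ B ∈ F) (hG : ∀ B ∈ G, B ⊆ S)
    (ha : ∀ A ∈ F, ∀ B ∈ G, A ∪ B ∈ F) :
    (F.card : ℝ) * logb 2 G.card ≤ ∑ A ∈ F, 2 * ((A ∩ S).card : ℝ) :=
  fib_sum F S _ (fun T => avg_log (fib_sub T) (fib_union hF T) hG (fib_absorb hG ha T))

/-- If `G` contains at least three quarters of the subsets of `S`, the traces on `S` of the members
of `F` have on average at least `|S| / 2` elements. -/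
theorem local_half (hF : ∀ A ∈ F, ∀ B ∈ F, A ∪ B ∈ F) (hG : ∀ B ∈ G, B ⊆ S)
    (ha : ∀ A ∈ F, ∀ B ∈ G, A ∪ B ∈ F) (h34 : 3 * 2 ^ S.card ≤ 4 * G.card) :
    (F.card : ℝ) * S.card ≤ ∑ A ∈ F, 2 * ((A ∩ S).card : ℝ) :=
  fib_sum F S _ (fun T => avg_half (fib_sub T) (fib_union hF T) hG (fib_absorb hG ha T) h34)

end

/-- double counting -/
theorem sum_freq (F : Finset (Finset α)) (S : Finset α) :
    ∑ x ∈ S, (F.filter (fun A => x ∈ A)).card = ∑ A ∈ F, (A ∩ S).card := by
  simp_rw [card_filter]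
  rw [sum_comm]
  apply sum_congr rfl
  intro A _
  rw [← card_filter, inter_comm, ← filter_mem_eq_inter]

end Pool.Agent.N188.LD
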