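import Pool.Agent.N188.LD.Shift

set_option autoImplicit false

/-!
# Union-closed families absorbing a family

`H` is a union-closed family of subsets of `s` such that `A ∪ B ∈ H` for `A ∈ H`, `B ∈ G`.

* `avg_log`: the average size of the members of `H` is at least `log₂ |G| / 2`.
* `avg_half`: if `G` contains at least three quarters of the subsets of `s`, it is at least `|s| / 2`.
-/

namespace Pool.Agent.N188.LD

open Finset Real

variable {α : Type*} [DecidableEq α]

/-- the number of pairs `(i, A)` with `A ∈ H`, `i ∈ s \ A` and `A ∪ {i}` not in `H` -/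
def upper (s : Finset α) (H : Finset (Finset α)) : ℕ :=
  ∑ i ∈ s, (H.filter (fun A => i ∉ A ∧ insert i A ∉ H)).card

theorem upper_slices {x : α} {s : Finset α} (hx : x ∉ s) (H : Finset (Finset α)) :
    upper (insert x s) H = (H.nonMemberSubfamily x \ H.memberSubfamily x).card +
      (upper s (H.nonMemberSubfamily x) + upper s (H.memberSubfamily x)) := by
  unfold upper
  rw [sum_insert hx, ← sum_add_distrib]
  congr 1
  · congr 1
    ext A
    rw [mem_filter, mem_sdiff, mem_nonMemberSubfamily, mem_memberSubfamily]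
    tauto
  · apply sum_congr rfl
    intro i hi
    have hix : i ≠ x := fun h => hx (h ▸ hi)
    rw [card_filter_slices x H]
    congr 1
    · congr 1
      apply filter_congr
      intro A hA
      rw [mem_nonMemberSubfamily] at hA
      have h1 : insert i A ∈ H.nonMemberSubfamily x ↔ insert i A ∈ H := by
        rw [mem_nonMemberSubfamily]
        constructor
        · exact fun h => h.1
        · intro h
          refine ⟨h, ?_⟩
          rw [mem_insert]; rintro (h' | h')
          · exact hix h'.symm
          · exact hA.2 h'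
      rw [h1]
    · congr 1
      apply filter_congr
      intro A hA
      rw [mem_memberSubfamily] at hA
      have h1 : insert i A ∈ H.memberSubfamily x ↔ insert i (insert x A) ∈ H := by
        rw [mem_memberSubfamily, Finset.insert_comm x i A]
        constructor
        · exact fun h => h.1
        · intro h
          refine ⟨h, ?_⟩
          rw [mem_insert]; rintro (h' | h')
          · exact hix h'.symm
          · exact hA.2 h'
      rw [h1, mem_insert]
      constructor
      · rintro ⟨h2, h3⟩; exact ⟨fun h => h2 (Or.inr h), h3⟩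
      · rintro ⟨h2, h3⟩; exact ⟨fun h => h.elim hix h2, h3⟩

/-- The boundary of a family, bounded in terms of the size of its complement. -/
theorem boundary (s : Finset α) : ∀ H : Finset (Finset α), (∀ A ∈ H, A ⊆ s) →
    ((2 : ℝ) ^ s.card - H.card) * (s.card - logb 2 ((2 : ℝ) ^ s.card - H.card)) ≤
      ∑ A ∈ H, (2 * (A.card : ℝ) - s.card) + 2 * upper s H := by
  induction s using Finset.induction_on with
  | empty =>
    intro H hH
    have h1 : ∀ A ∈ H, (2 * (A.card : ℝ) - (∅ : Finset α).card) = 0 := by
      intro A hA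
      rw [subset_empty.1 (hH A hA)]; simp
    rw [sum_congr rfl h1, sum_const_zero]
    have h2 : H.card ≤ 1 := by
      rw [card_le_one]
      intro A hA B hB
      rw [subset_empty.1 (hH A hA), subset_empty.1 (hH B hB)]
    unfold upper
    interval_cases H.card <;> simp
  | insert x s hx ih =>
    intro H hH
    have h0 := ih (H.nonMemberSubfamily x) (sub_lo hH)
    have h1 := ih (H.memberSubfamily x) (sub_hi hH)
    have c0 : ∀ X : Finset (Finset α), (∀ A ∈ X, A ⊆ s) → (X.card : ℝ) ≤ 2 ^ s.card := by
      intro X hX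
      have : X ⊆ s.powerset := fun A hA => mem_powerset.2 (hX A hA)
      have := card_le_card this
      rw [card_powerset] at this
      exact_mod_cast this
    have b0 := c0 _ (sub_lo hH)
    have b1 := c0 _ (sub_hi hH)
    have e0 := card_slices x H
    rw [upper_slices hx, sum_slices x H]
    set H0 := H.nonMemberSubfamily x with hH0
    set H1 := H.memberSubfamily x with hH1
    have e1 : ∑ A ∈ H0, (2 * (A.card : ℝ) - (insert x s).card) =
        ∑ A ∈ H0, (2 * (A.card : ℝ) - s.card) - H0.card := by
      rw [eq_sub_iff_add_eq, ← nsmul_one H0.card, ← sum_const, ← sum_add_distrib]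
      apply sum_congr rfl
      intro A hA
      rw [card_insert_of_notMem hx]; push_cast; ring
    have e2 : ∑ A ∈ H1, (2 * ((insert x A).card : ℝ) - (insert x s).card) =
        ∑ A ∈ H1, (2 * (A.card : ℝ) - s.card) + H1.card := by
      rw [← nsmul_one H1.card, ← sum_const, ← sum_add_distrib]
      apply sum_congr rfl
      intro A hA
      have : x ∉ A := by rw [hH1, mem_memberSubfamily] at hA; exact hA.2
      rw [card_insert_of_notMem hx, card_insert_of_notMem this]; push_cast; ring
    rw [e1, e2, card_insert_of_notMem hx]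
    have e3 : (H.card : ℝ) = H0.card + H1.card := by rw [← e0]; push_cast; ring
    have d1 : (0 : ℝ) ≤ (H0 \ H1).card := Nat.cast_nonneg _
    have d2 : (H0.card : ℝ) ≤ H1.card + (H0 \ H1).card := by
      have h3 : H0 ⊆ H1 ∪ (H0 \ H1) := by
        rw [union_sdiff_self_eq_union]; exact subset_union_right
      have h4 := (card_le_card h3).trans (card_union_le _ _)
      exact_mod_cast h4
    set n0 := (2 : ℝ) ^ s.card - H0.card with hn0
    set n1 := (2 : ℝ) ^ s.card - H1.card with hn1
    have p0 : 0 ≤ n0 := by linarith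
    have p1 : 0 ≤ n1 := by linarith
    have e4 : (2 : ℝ) ^ (s.card + 1) - H.card = n0 + n1 := by
      rw [pow_succ, e3, hn0, hn1]; ring
    rw [e4]
    have h5 := split_min p0 p1
    have h6 : (H1.card : ℝ) - H0.card + 2 * (H0 \ H1).card ≥ n0 + n1 - 2 * min n0 n1 := by
      rcases le_total n0 n1 with h | h
      · rw [min_eq_left h]; linarith
      · rw [min_eq_right h]; linarith
    push_cast
    nlinarith

variable {s : Finset α} {H G : Finset (Finset α)}

omit [DecidableEq α] in
theorem card_le_pow {X : Finset (Finset α)} (hX : ∀ A ∈ X, A ⊆ s) :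
    (X.card : ℝ) ≤ 2 ^ s.card := by
  have : X ⊆ s.powerset := fun A hA => mem_powerset.2 (hX A hA)
  have := card_le_card this
  rw [card_powerset] at this
  exact_mod_cast this

theorem upIn_le (Y : Finset (Finset α)) : ((upIn s Y).card : ℝ) ≤ 2 ^ s.card :=
  card_le_pow (fun _ hA => (mem_upIn.1 hA).1)

/-- consequence of the correlation inequality -/
theorem absorb (hH : ∀ A ∈ H, A ⊆ s) (hG : ∀ B ∈ G, B ⊆ s) (ha : ∀ A ∈ H, ∀ B ∈ G, A ∪ B ∈ H) :
    G.card * (upIn s H).card ≤ H.card * 2 ^ s.card := by
  refine (key s G H hG hH).trans (Nat.mul_le_mul_right _ (card_le_card ?_))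
  intro C hC
  rw [mem_join] at hC
  obtain ⟨B, hB, A, hA, rfl⟩ := hC
  rw [union_comm]
  exact ha A hA B hB

/-- The average size of the members of a union-closed family absorbing `G` is at least
`log₂ |G| / 2`. -/
theorem avg_log (hH : ∀ A ∈ H, A ⊆ s) (hU : ∀ A ∈ H, ∀ B ∈ H, A ∪ B ∈ H)
    (hG : ∀ B ∈ G, B ⊆ s) (ha : ∀ A ∈ H, ∀ B ∈ G, A ∪ B ∈ H) :
    (H.card : ℝ) * logb 2 G.card ≤ ∑ A ∈ H, 2 * (A.card : ℝ) := by
  rcases H.eq_empty_or_nonempty with h0 | hne
  · subst h0; simp
  rcases G.eq_empty_or_nonempty with g0 | gne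
  · subst g0
    simp only [card_empty, Nat.cast_zero, logb_zero, mul_zero]
    exact sum_nonneg (fun A _ => by positivity)
  obtain ⟨u, hu1, hu2, hu3⟩ := intervals s H hH hU
  have hc : (0 : ℝ) < H.card := by exact_mod_cast hne.card_pos
  have hg : (0 : ℝ) < G.card := by exact_mod_cast gne.card_pos
  -- the intervals are disjoint
  have h1 : ∑ A ∈ H, (2 : ℝ) ^ ((u A).card - A.card) ≤ ((upIn s H).card : ℝ) := by
    have h2 : ∀ A ∈ H, 2 ^ ((u A).card - A.card) = (Icc A (u A)).card := by
      intro A hA
      rw [card_Icc_finset (hu1 A hA).1]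
    have h3 : ∑ A ∈ H, 2 ^ ((u A).card - A.card) ≤ (upIn s H).card := by
      rw [sum_congr rfl h2, ← card_biUnion]
      · apply card_le_card
        intro C hC
        rw [mem_biUnion] at hC
        obtain ⟨A, hA, hC⟩ := hC
        rw [mem_Icc] at hC
        rw [mem_upIn]
        exact ⟨(show C ⊆ u A from hC.2).trans (hu1 A hA).2, A, hA, hC.1⟩
      · intro A hA B hB hAB
        rw [Function.onFun, disjoint_left]
        intro C hC hC'
        rw [mem_Icc] at hC hC'
        exact hAB (hu2 A hA B hB ((show B ⊆ C from hC'.1).trans hC.2)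
          ((show A ⊆ C from hC.1).trans hC'.2))
    exact_mod_cast h3
  have h2 := sum_exp H (fun A => (u A).card - A.card) _ hne h1
  have hk : (0 : ℝ) < (upIn s H).card := by
    have : H ⊆ upIn s H := fun A hA => mem_upIn.2 ⟨hH A hA, A, hA, Subset.rfl⟩
    have := hne.mono this
    exact_mod_cast this.card_pos
  have h3 : logb 2 ((upIn s H).card : ℝ) ≤ s.card := by
    have := logb_le_logb_of_le (b := 2) (by norm_num) hk (upIn_le (s := s) H)
    rwa [logb_pow, logb_self_eq_one (by norm_num), mul_one] at this
  have h4 : logb 2 (G.card : ℝ) + logb 2 ((upIn s H).card : ℝ) ≤ logb 2 H.card + s.card := by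
    have h5 := absorb hH hG ha
    have h6 : (G.card : ℝ) * (upIn s H).card ≤ H.card * 2 ^ s.card := by exact_mod_cast h5
    have := logb_le_logb_of_le (b := 2) (by norm_num) (by positivity) h6
    rwa [logb_mul hg.ne' hk.ne', logb_mul hc.ne' (by positivity), logb_pow,
      logb_self_eq_one (by norm_num), mul_one] at this
  have e1 : ∀ A ∈ H, 2 * (A.card : ℝ) =
      (2 * ((u A).card : ℝ) - s.card) - 2 * (((u A).card - A.card : ℕ) : ℝ) + s.card := by
    intro A hA
    rw [Nat.cast_sub (card_le_card (hu1 A hA).1)]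
    ring
  rw [sum_congr rfl e1, sum_add_distrib, sum_sub_distrib, sum_const, ← mul_sum, nsmul_eq_mul]
  have h7 : 0 ≤ (H.card : ℝ) * (2 * s.card + logb 2 H.card - 2 * logb 2 ((upIn s H).card : ℝ) -
      logb 2 G.card) := mul_nonneg hc.le (by linarith)
  nlinarith

/-- A set outside a union-closed family has at most one lower neighbour in it. -/
theorem upper_le (hH : ∀ A ∈ H, A ⊆ s) (hU : ∀ A ∈ H, ∀ B ∈ H, A ∪ B ∈ H) :
    upper s H + H.card ≤ (upIn s H).card := by
  have h1 : upper s H = ∑ i ∈ s, ((H.filter (fun A => i ∉ A ∧ insert i A ∉ H)).image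
      (fun A => insert i A)).card := by
    unfold upper
    apply sum_congr rfl
    intro i _
    rw [card_image_of_injOn]
    intro A hA B hB hAB
    rw [mem_coe, mem_filter] at hA hB
    have h2 := congrArg (fun C => C.erase i) hAB
    simpa [erase_insert hA.2.1, erase_insert hB.2.1] using h2
  rw [h1, ← card_biUnion, ← card_union_of_disjoint]
  · apply card_le_card
    intro C hC
    rw [mem_union, mem_biUnion] at hC
    rw [mem_upIn]
    rcases hC with ⟨i, hi, hC⟩ | hC
    · rw [mem_image] at hC
      obtain ⟨A, hA, rfl⟩ := hC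
      rw [mem_filter] at hA
      exact ⟨insert_subset hi (hH A hA.1), A, hA.1, subset_insert i A⟩
    · exact ⟨hH C hC, C, hC, Subset.rfl⟩
  · rw [disjoint_left]
    intro C hC hC'
    rw [mem_biUnion] at hC
    obtain ⟨i, _, hC⟩ := hC
    rw [mem_image] at hC
    obtain ⟨A, hA, rfl⟩ := hC
    rw [mem_filter] at hA
    exact hA.2.2 hC'
  · intro i _ j _ hij
    rw [Function.onFun, disjoint_left]
    intro C hC hC'
    rw [mem_image] at hC hC'
    obtain ⟨A, hA, hAC⟩ := hC
    obtain ⟨B, hB, hBC⟩ := hC'
    rw [mem_filter] at hA hB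
    apply hA.2.2
    have h2 : insert i A = A ∪ B := by
      ext y
      constructor
      · intro hy
        by_cases hyi : y = i
        · subst hyi
          have h3 : y ∈ insert j B := by rw [hBC, ← hAC]; exact mem_insert_self y A
          rcases mem_insert.1 h3 with h4 | h4
          · exact (hij h4).elim
          · exact mem_union_right _ h4
        · exact mem_union_left _ ((mem_insert.1 hy).resolve_left hyi)
      · intro hy
        rcases mem_union.1 hy with h3 | h3
        · exact mem_insert_of_mem h3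
        · rw [hAC, ← hBC]; exact mem_insert_of_mem h3
    rw [h2]
    exact hU A hA.1 B hB.1

/-- If `G` contains at least three quarters of the subsets of `s`, the average size of the members
of a union-closed family absorbing `G` is at least `|s| / 2`. -/
theorem avg_half (hH : ∀ A ∈ H, A ⊆ s) (hU : ∀ A ∈ H, ∀ B ∈ H, A ∪ B ∈ H)
    (hG : ∀ B ∈ G, B ⊆ s) (ha : ∀ A ∈ H, ∀ B ∈ G, A ∪ B ∈ H)
    (h34 : 3 * 2 ^ s.card ≤ 4 * G.card) :
    (H.card : ℝ) * s.card ≤ ∑ A ∈ H, 2 * (A.card : ℝ) := by
  have h1 := boundary s H hH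
  have h2 := upper_le hH hU
  have h3 := absorb hH hG ha
  have hN : (0 : ℝ) < 2 ^ s.card := by positivity
  have hHN : (H.card : ℝ) ≤ 2 ^ s.card := card_le_pow hH
  have h2' : (upper s H : ℝ) + H.card ≤ (upIn s H).card := by exact_mod_cast h2
  have h5 := upIn_le (s := s) H
  have h3' : (G.card : ℝ) * (upIn s H).card ≤ H.card * 2 ^ s.card := by exact_mod_cast h3
  have h34' : (3 : ℝ) * 2 ^ s.card ≤ 4 * G.card := by exact_mod_cast h34
  -- the upper boundary is at most a third of the family
  have h6 : 3 * ((upIn s H).card : ℝ) ≤ 4 * H.card := by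
    have h7 : (3 * 2 ^ s.card : ℝ) * (upIn s H).card ≤ 4 * G.card * (upIn s H).card :=
      mul_le_mul_of_nonneg_right h34' (Nat.cast_nonneg _)
    have h8 : (2 ^ s.card : ℝ) * (3 * (upIn s H).card) ≤ 2 ^ s.card * (4 * H.card) := by
      nlinarith
    exact le_of_mul_le_mul_left h8 hN
  have e1 : ∑ A ∈ H, (2 * (A.card : ℝ) - s.card) =
      ∑ A ∈ H, 2 * (A.card : ℝ) - H.card * s.card := by
    rw [sum_sub_distrib, sum_const, nsmul_eq_mul]
  rw [e1] at h1
  set n := (2 : ℝ) ^ s.card - H.card with hn
  have hn0 : 0 ≤ n := by linarith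
  have hD1 : (upper s H : ℝ) ≤ n := by linarith
  have hD2 : 3 * (upper s H : ℝ) ≤ 2 ^ s.card - n := by linarith
  rcases hn0.eq_or_lt with h | h
  · have h7 : (upper s H : ℝ) = 0 := le_antisymm (by linarith) (Nat.cast_nonneg _)
    rw [← h, h7] at h1
    simp at h1
    linarith
  have e2 : logb 2 ((2 : ℝ) ^ s.card) = s.card := by
    rw [logb_pow, logb_self_eq_one (by norm_num), mul_one]
  rcases le_total (4 * n) (2 ^ s.card) with h4 | h4
  · have h7 := small_part h h4
    rw [e2] at h7
    linarith
  · have h7 := quarter h (show n ≤ 2 ^ s.card by linarith [(Nat.cast_nonneg H.card : (0:ℝ) ≤ _)]) h4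
    rw [e2] at h7
    linarith

end Pool.Agent.N188.LD
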