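import Mathlib

set_option autoImplicit false

/-!
# Numerical inequalities
-/

namespace Pool.Agent.N188.LD

open Real

/-- `1 + t ≥ 2 ^ t` in logarithmic form. -/
theorem logb_one_add {t : ℝ} (h0 : 0 ≤ t) (h1 : t ≤ 1) : t ≤ logb 2 (1 + t) := by
  have hc := strictConcaveOn_log_Ioi.concaveOn
  have h2 : (0 : ℝ) < Real.log 2 := Real.log_pos (by norm_num)
  have h := hc.2 (show (1 : ℝ) ∈ Set.Ioi 0 by norm_num) (show (2 : ℝ) ∈ Set.Ioi 0 by norm_num)
    (show (0 : ℝ) ≤ 1 - t by linarith) h0 (by ring)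
  simp only [smul_eq_mul, Real.log_one, mul_zero, zero_add, mul_one] at h
  rw [logb, le_div_iff₀ h2]
  have h3 : 1 - t + t * 2 = 1 + t := by ring
  rw [h3] at h
  exact h

theorem split_le {a b : ℝ} (ha : 0 ≤ a) (hab : a ≤ b) :
    a * logb 2 a + b * logb 2 b + 2 * a ≤ (a + b) * logb 2 (a + b) := by
  rcases ha.eq_or_lt with h | h
  · subst h; simp
  have hb : 0 < b := lt_of_lt_of_le h hab
  have e1 : logb 2 (a + b) = logb 2 a + logb 2 (1 + b / a) := by
    rw [← logb_mul h.ne' (by positivity)]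
    congr 1; field_simp
  have e2 : logb 2 (a + b) = logb 2 b + logb 2 (1 + a / b) := by
    rw [← logb_mul hb.ne' (by positivity)]
    congr 1; field_simp; ring
  have h1 : a / b ≤ logb 2 (1 + a / b) :=
    logb_one_add (by positivity) (by rw [div_le_one hb]; exact hab)
  have h2 : 1 ≤ logb 2 (1 + b / a) := by
    have : logb 2 2 ≤ logb 2 (1 + b / a) := by
      apply logb_le_logb_of_le (by norm_num) (by norm_num)
      have : 1 ≤ b / a := by rw [one_le_div h]; exact hab
      linarith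
    rwa [logb_self_eq_one (by norm_num)] at this
  have h3 : b * (a / b) = a := by field_simp
  have h4 : b * (a / b) ≤ b * logb 2 (1 + a / b) := mul_le_mul_of_nonneg_left h1 hb.le
  have h5 : a * 1 ≤ a * logb 2 (1 + b / a) := mul_le_mul_of_nonneg_left h2 h.le
  have e3 : (a + b) * logb 2 (a + b) = a * logb 2 (a + b) + b * logb 2 (a + b) := by ring
  rw [e3]
  nth_rw 1 [e1]
  rw [e2]
  nlinarith

theorem split_min {a b : ℝ} (ha : 0 ≤ a) (hb : 0 ≤ b) :
    a * logb 2 a + b * logb 2 b + 2 * min a b ≤ (a + b) * logb 2 (a + b) := by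
  rcases le_total a b with h | h
  · rw [min_eq_left h]; exact split_le ha h
  · rw [min_eq_right h]
    have := split_le hb h
    rw [add_comm b a] at this
    linarith

/-- concavity of the entropy function, between one quarter and one -/
theorem quarter {n N : ℝ} (hn : 0 < n) (hnN : n ≤ N) (h4 : N ≤ 4 * n) :
    2 / 3 * (N - n) ≤ n * (logb 2 N - logb 2 n) := by
  have hN : 0 < N := lt_of_lt_of_le hn hnN
  have h2 : (0 : ℝ) < Real.log 2 := Real.log_pos (by norm_num)
  set x := n / N with hx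
  have hx0 : 0 < x := by positivity
  have hx1 : x ≤ 1 := by rw [hx, div_le_one hN]; exact hnN
  have hx4 : 1 / 4 ≤ x := by rw [hx, le_div_iff₀ hN]; linarith
  have hc := Real.concaveOn_negMulLog
  have h := hc.2 (show (1 / 4 : ℝ) ∈ Set.Ici 0 by norm_num) (show (1 : ℝ) ∈ Set.Ici 0 by norm_num)
    (show (0 : ℝ) ≤ 4 / 3 * (1 - x) by linarith) (show (0 : ℝ) ≤ 1 - 4 / 3 * (1 - x) by linarith)
    (by ring)
  have e1 : (4 / 3 * (1 - x)) • (1 / 4 : ℝ) + (1 - 4 / 3 * (1 - x)) • (1 : ℝ) = x := by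
    simp only [smul_eq_mul]; ring
  rw [e1] at h
  have e2 : Real.negMulLog (1 / 4) = 1 / 2 * Real.log 2 := by
    rw [Real.negMulLog]
    have : Real.log (1 / 4) = - (2 * Real.log 2) := by
      rw [one_div, Real.log_inv]
      congr 1
      rw [show (4 : ℝ) = 2 ^ 2 by norm_num, Real.log_pow]
      norm_num
    rw [this]; ring
  rw [e2, Real.negMulLog_one] at h
  simp only [smul_eq_mul, mul_zero, add_zero] at h
  have e3 : Real.negMulLog x = x * (logb 2 N - logb 2 n) * Real.log 2 := by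
    rw [Real.negMulLog, hx, Real.log_div hn.ne' hN.ne', logb, logb]
    field_simp
    ring
  rw [e3] at h
  have h5 : 2 / 3 * (1 - x) ≤ x * (logb 2 N - logb 2 n) := by
    have h6 : 2 / 3 * (1 - x) * Real.log 2 ≤ x * (logb 2 N - logb 2 n) * Real.log 2 := by
      calc 2 / 3 * (1 - x) * Real.log 2 = 4 / 3 * (1 - x) * (1 / 2 * Real.log 2) := by ring
        _ ≤ _ := h
    exact le_of_mul_le_mul_right h6 h2
  have h7 := mul_le_mul_of_nonneg_left h5 hN.le
  have e4 : N * (x * (logb 2 N - logb 2 n)) = n * (logb 2 N - logb 2 n) := by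
    rw [hx]; field_simp
  have e5 : N * (2 / 3 * (1 - x)) = 2 / 3 * (N - n) := by
    rw [hx]; field_simp
  rw [e4, e5] at h7
  exact h7

theorem small_part {n N : ℝ} (hn : 0 < n) (h4 : 4 * n ≤ N) :
    2 * n ≤ n * (logb 2 N - logb 2 n) := by
  have h1 : logb 2 (4 * n) ≤ logb 2 N := logb_le_logb_of_le (by norm_num) (by positivity) h4
  have h2 : logb 2 (4 * n) = 2 + logb 2 n := by
    rw [logb_mul (by norm_num) hn.ne']
    congr 1
    rw [show (4 : ℝ) = 2 ^ (2 : ℝ) by norm_num, logb_rpow (by norm_num) (by norm_num)]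
  rw [h2] at h1
  nlinarith

/-- Jensen's inequality for powers of two -/
theorem sum_exp {ι : Type*} (X : Finset ι) (x : ι → ℕ) (T : ℝ) (hX : X.Nonempty)
    (h : ∑ A ∈ X, (2 : ℝ) ^ x A ≤ T) :
    ∑ A ∈ X, (x A : ℝ) ≤ X.card * (logb 2 T - logb 2 X.card) := by
  have h2 : (0 : ℝ) < Real.log 2 := Real.log_pos (by norm_num)
  have hc : (0 : ℝ) < X.card := by exact_mod_cast hX.card_pos
  have hT : 0 < T := by
    refine lt_of_lt_of_le ?_ h
    exact Finset.sum_pos (fun A _ => by positivity) hX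
  have h3 : ∀ A ∈ X, (x A : ℝ) * Real.log 2 ≤
      (Real.log T - Real.log X.card) + ((2 : ℝ) ^ x A * (X.card / T) - 1) := by
    intro A _
    have h4 := Real.log_le_sub_one_of_pos (show 0 < (2 : ℝ) ^ x A * (X.card / T) by positivity)
    rw [Real.log_mul (by positivity) (by positivity), Real.log_pow,
      Real.log_div hc.ne' hT.ne'] at h4
    linarith
  have h5 := Finset.sum_le_sum h3
  rw [← Finset.sum_mul, Finset.sum_add_distrib, Finset.sum_const, Finset.sum_sub_distrib,
    Finset.sum_const, ← Finset.sum_mul, nsmul_eq_mul, nsmul_eq_mul, mul_one] at h5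
  have h6 : (∑ A ∈ X, (2 : ℝ) ^ x A) * (X.card / T) ≤ X.card := by
    calc (∑ A ∈ X, (2 : ℝ) ^ x A) * (X.card / T) ≤ T * (X.card / T) :=
          mul_le_mul_of_nonneg_right h (by positivity)
      _ = X.card := by field_simp
  have h7 : (∑ A ∈ X, (x A : ℝ)) * Real.log 2 ≤ X.card * (Real.log T - Real.log X.card) := by
    linarith
  rw [logb, logb, ← sub_div, ← mul_div_assoc, le_div_iff₀ h2]
  exact h7

end Pool.Agent.N188.LD
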