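import Pool.Agent.N188.LD.Key
import Pool.Agent.N188.LD.Num

set_option autoImplicit false

/-!
# Disjoint intervals above the members of a union-closed family (after Reimer) and the boundary
of a family
-/

namespace Pool.Agent.N188.LD

open Finset Real

variable {α : Type*} [DecidableEq α]

/-- sums over a family, by slices -/
theorem sum_slices {M : Type*} [AddCommMonoid M] (x : α) (X : Finset (Finset α))
    (g : Finset α → M) :
    ∑ A ∈ X, g A = ∑ A ∈ X.nonMemberSubfamily x, g A +
      ∑ A ∈ X.memberSubfamily x, g (insert x A) := by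
  rw [← sum_filter_add_sum_filter_not X (fun A => x ∉ A)]
  congr 1
  refine sum_bij' (fun A _ => A.erase x) (fun A _ => insert x A) ?_ ?_ ?_ ?_ ?_
  · intro A hA
    rw [mem_filter, not_not] at hA
    rw [mem_memberSubfamily, insert_erase hA.2]
    exact ⟨hA.1, notMem_erase x A⟩
  · intro A hA
    rw [mem_memberSubfamily] at hA
    rw [mem_filter, not_not]
    exact ⟨hA.1, mem_insert_self x A⟩
  · intro A hA
    rw [mem_filter, not_not] at hA
    exact insert_erase hA.2
  · intro A hA
    rw [mem_memberSubfamily] at hA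
    exact erase_insert hA.2
  · intro A hA
    rw [mem_filter, not_not] at hA
    simp only [insert_erase hA.2]

theorem card_filter_slices (x : α) (X : Finset (Finset α)) (P : Finset α → Prop)
    [DecidablePred P] :
    (X.filter P).card = ((X.nonMemberSubfamily x).filter P).card +
      ((X.memberSubfamily x).filter (fun A => P (insert x A))).card := by
  rw [card_filter, card_filter, card_filter]
  exact sum_slices x X _

/-- In a union-closed family every member can be enlarged such that the intervals are disjoint and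
the enlarged sets are as large as in an up-set. -/
theorem intervals (s : Finset α) : ∀ X : Finset (Finset α), (∀ A ∈ X, A ⊆ s) →
    (∀ A ∈ X, ∀ B ∈ X, A ∪ B ∈ X) → ∃ u : Finset α → Finset α,
      (∀ A ∈ X, A ⊆ u A ∧ u A ⊆ s) ∧
      (∀ A ∈ X, ∀ B ∈ X, B ⊆ u A → A ⊆ u B → A = B) ∧
      (X.card : ℝ) * (s.card - logb 2 X.card) ≤ ∑ A ∈ X, (2 * ((u A).card : ℝ) - s.card) := by
  induction s using Finset.induction_on with
  | empty =>
    intro X hX _
    refine ⟨id, fun A hA => ⟨Subset.rfl, hX A hA⟩, ?_, ?_⟩
    · intro A hA B hB _ _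
      rw [subset_empty.1 (hX A hA), subset_empty.1 (hX B hB)]
    · have h1 : ∀ A ∈ X, (2 * ((id A).card : ℝ) - (∅ : Finset α).card) = 0 := by
        intro A hA
        rw [subset_empty.1 (hX A hA)]; simp
      rw [sum_congr rfl h1, sum_const_zero]
      rcases X.eq_empty_or_nonempty with h | h
      · subst h; simp
      · have h2 : X.card = 1 := by
          apply le_antisymm _ h.card_pos
          rw [card_le_one]
          intro A hA B hB
          rw [subset_empty.1 (hX A hA), subset_empty.1 (hX B hB)]
        rw [h2]; simp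
  | insert x s hx ih =>
    intro X hX hU
    set X0 := X.nonMemberSubfamily x with hX0
    set X1 := X.memberSubfamily x with hX1
    have m0 : ∀ A, A ∈ X0 ↔ A ∈ X ∧ x ∉ A := fun A => by rw [hX0, mem_nonMemberSubfamily]
    have m1 : ∀ A, A ∈ X1 ↔ insert x A ∈ X ∧ x ∉ A := fun A => by rw [hX1, mem_memberSubfamily]
    have nm : ∀ {A B : Finset α}, x ∉ A → x ∉ B → x ∉ A ∪ B := by
      intro A B hA hB h
      rcases mem_union.1 h with h | h
      · exact hA h
      · exact hB h
    have u00 : ∀ A ∈ X0, ∀ B ∈ X0, A ∪ B ∈ X0 := by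
      intro A hA B hB
      rw [m0] at *
      exact ⟨hU A hA.1 B hB.1, nm hA.2 hB.2⟩
    have u01 : ∀ A ∈ X0, ∀ B ∈ X1, A ∪ B ∈ X1 := by
      intro A hA B hB
      rw [m0] at hA
      rw [m1] at *
      have := hU A hA.1 _ hB.1
      rw [union_insert] at this
      exact ⟨this, nm hA.2 hB.2⟩
    have u10 : ∀ A ∈ X1, ∀ B ∈ X0, A ∪ B ∈ X1 := by
      intro A hA B hB
      rw [union_comm]; exact u01 B hB A hA
    have u11 : ∀ A ∈ X1, ∀ B ∈ X1, A ∪ B ∈ X1 := by
      intro A hA B hB
      rw [m1] at *
      have := hU _ hA.1 _ hB.1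
      rw [insert_union, union_insert, insert_idem] at this
      exact ⟨this, nm hA.2 hB.2⟩
    have s0 : ∀ A ∈ X0, A ⊆ s := sub_lo hX
    have s1 : ∀ A ∈ X1, A ⊆ s := sub_hi hX
    obtain ⟨uI, hI1, hI2, hI3⟩ := ih (X0 ∩ X1) (fun A hA => s0 A (mem_inter.1 hA).1)
      (fun A hA B hB => mem_inter.2 ⟨u00 A (mem_inter.1 hA).1 B (mem_inter.1 hB).1,
        u11 A (mem_inter.1 hA).2 B (mem_inter.1 hB).2⟩)
    obtain ⟨uP, hP1, hP2, hP3⟩ := ih (X0 ∪ X1)
      (fun A hA => (mem_union.1 hA).elim (s0 A) (s1 A)) (by
        intro A hA B hB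
        rcases mem_union.1 hA with hA | hA <;> rcases mem_union.1 hB with hB | hB
        · exact mem_union_left _ (u00 A hA B hB)
        · exact mem_union_right _ (u01 A hA B hB)
        · exact mem_union_right _ (u10 A hA B hB)
        · exact mem_union_right _ (u11 A hA B hB))
    set u : Finset α → Finset α := fun A =>
      if x ∈ A then insert x (uP (A.erase x)) else
        if insert x A ∈ X then uI A else insert x (uP A) with hu
    -- the three kinds of members
    have ua : ∀ A ∈ X0 ∩ X1, u A = uI A := by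
      intro A hA
      rw [mem_inter, m0, m1] at hA
      simp only [hu]
      rw [if_neg hA.1.2, if_pos hA.2.1]
    have ub : ∀ A ∈ X0 \ X1, u A = insert x (uP A) := by
      intro A hA
      rw [mem_sdiff, m0, m1] at hA
      simp only [hu]
      rw [if_neg hA.1.2, if_neg (fun h => hA.2 ⟨h, hA.1.2⟩)]
    have uc : ∀ A ∈ X1, u (insert x A) = insert x (uP A) := by
      intro A hA
      rw [m1] at hA
      simp only [hu]
      rw [if_pos (mem_insert_self x A), erase_insert hA.2]
    -- reduction of a member
    have red : ∀ A ∈ X, (A ∈ X0 ∩ X1 ∧ u A = uI A) ∨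
        (A.erase x ∈ X0 ∪ X1 ∧ u A = insert x (uP (A.erase x)) ∧
          (x ∈ A ∨ (A ∈ X0 \ X1))) := by
      intro A hA
      by_cases hxA : x ∈ A
      · right
        have h1 : A.erase x ∈ X1 := by
          rw [m1, insert_erase hxA]; exact ⟨hA, notMem_erase x A⟩
        refine ⟨mem_union_right _ h1, ?_, Or.inl hxA⟩
        have := uc _ h1
        rwa [insert_erase hxA] at this
      · have h0 : A ∈ X0 := by rw [m0]; exact ⟨hA, hxA⟩
        by_cases h1 : A ∈ X1
        · left; exact ⟨mem_inter.2 ⟨h0, h1⟩, ua A (mem_inter.2 ⟨h0, h1⟩)⟩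
        · right
          have h2 : A ∈ X0 \ X1 := mem_sdiff.2 ⟨h0, h1⟩
          rw [erase_eq_of_notMem hxA]
          exact ⟨mem_union_left _ h0, ub A h2, Or.inr h2⟩
    have xs : ∀ B, B ⊆ s → x ∉ B := fun B hB h => hx (hB h)
    have hxuI : ∀ A ∈ X0 ∩ X1, x ∉ uI A := fun A hA => xs _ (hI1 A hA).2
    have hxuP : ∀ A ∈ X0 ∪ X1, x ∉ uP A := fun A hA => xs _ (hP1 A hA).2
    -- the mixed case
    have mixed : ∀ A ∈ X, ∀ B ∈ X, A ∈ X0 ∩ X1 → u A = uI A →
        B.erase x ∈ X0 ∪ X1 → u B = insert x (uP (B.erase x)) → (x ∈ B ∨ B ∈ X0 \ X1) →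
        B ⊆ u A → A ⊆ u B → False := by
      intro A hA B hB hAI huA hBP huB hk h1 h2
      rw [huA] at h1
      rw [huB] at h2
      have hxB : x ∉ B := fun h => hxuI A hAI (h1 h)
      have hB0 : B ∈ X0 \ X1 := hk.resolve_left hxB
      rw [mem_sdiff] at hB0
      rw [erase_eq_of_notMem hxB] at h2 hBP
      rw [mem_inter] at hAI
      have hxA : x ∉ A := ((m0 A).1 hAI.1).2
      have h3 : A ⊆ uP B := (subset_insert_iff_of_notMem hxA).1 h2
      have h4 : A ∪ B ∈ X1 := u10 A hAI.2 B hB0.1
      have h5 : A ∪ B = B := by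
        apply hP2 (A ∪ B) (mem_union_right _ h4) B hBP
        · exact subset_union_right.trans (hP1 _ (mem_union_right _ h4)).1
        · exact union_subset h3 (hP1 B hBP).1
      rw [h5] at h4
      exact hB0.2 h4
    refine ⟨u, ?_, ?_, ?_⟩
    · intro A hA
      rcases red A hA with ⟨h1, h2⟩ | ⟨h1, h2, -⟩
      · rw [h2]
        exact ⟨(hI1 A h1).1, (hI1 A h1).2.trans (subset_insert x s)⟩
      · rw [h2]
        refine ⟨?_, insert_subset_insert x (hP1 _ h1).2⟩
        intro y hy
        rw [mem_insert]
        by_cases hyx : y = x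
        · left; exact hyx
        · right; exact (hP1 _ h1).1 (mem_erase.2 ⟨hyx, hy⟩)
    · intro A hA B hB h1 h2
      rcases red A hA with ⟨a1, a2⟩ | ⟨a1, a2, a3⟩
      · rcases red B hB with ⟨b1, b2⟩ | ⟨b1, b2, b3⟩
        · rw [a2] at h1; rw [b2] at h2
          exact hI2 A a1 B b1 h1 h2
        · exact (mixed A hA B hB a1 a2 b1 b2 b3 h1 h2).elim
      · rcases red B hB with ⟨b1, b2⟩ | ⟨b1, b2, b3⟩
        · exact (mixed B hB A hA b1 b2 a1 a2 a3 h2 h1).elim
        · rw [a2] at h1; rw [b2] at h2
          have h3 : B.erase x ⊆ uP (A.erase x) := by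
            intro y hy
            rw [mem_erase] at hy
            exact (mem_insert.1 (h1 hy.2)).resolve_left hy.1
          have h4 : A.erase x ⊆ uP (B.erase x) := by
            intro y hy
            rw [mem_erase] at hy
            exact (mem_insert.1 (h2 hy.2)).resolve_left hy.1
          have h5 := hP2 _ a1 _ b1 h3 h4
          by_cases hxA : x ∈ A
          · by_cases hxB : x ∈ B
            · rw [← insert_erase hxA, ← insert_erase hxB, h5]
            · exfalso
              have hB0 := mem_sdiff.1 (b3.resolve_left hxB)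
              rw [erase_eq_of_notMem hxB] at h5
              apply hB0.2
              rw [m1, ← h5, insert_erase hxA]
              exact ⟨hA, notMem_erase x A⟩
          · by_cases hxB : x ∈ B
            · exfalso
              have hA0 := mem_sdiff.1 (a3.resolve_left hxA)
              rw [erase_eq_of_notMem hxA] at h5
              apply hA0.2
              rw [m1, h5, insert_erase hxB]
              exact ⟨hB, notMem_erase x B⟩
            · rwa [erase_eq_of_notMem hxA, erase_eq_of_notMem hxB] at h5
    · rw [sum_slices x X, ← hX0, ← hX1]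
      have e1 : ∑ A ∈ X0, (2 * ((u A).card : ℝ) - (insert x s).card) =
          ∑ A ∈ X0 ∩ X1, (2 * ((uI A).card : ℝ) - s.card) - (X0 ∩ X1).card +
          (∑ A ∈ X0 \ X1, (2 * ((uP A).card : ℝ) - s.card) + (X0 \ X1).card) := by
        have e0 : ∑ A ∈ X0, (2 * ((u A).card : ℝ) - (insert x s).card) =
            ∑ A ∈ X0 ∩ X1, (2 * ((u A).card : ℝ) - (insert x s).card) +
            ∑ A ∈ X0 \ X1, (2 * ((u A).card : ℝ) - (insert x s).card) := by
          rw [add_comm, ← sum_union (disjoint_sdiff_inter X0 X1), sdiff_union_inter]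
        rw [e0]
        congr 1
        · rw [eq_sub_iff_add_eq, ← nsmul_one (X0 ∩ X1).card, ← sum_const, ← sum_add_distrib]
          apply sum_congr rfl
          intro A hA
          rw [ua A hA, card_insert_of_notMem hx]; push_cast; ring
        · rw [← nsmul_one (X0 \ X1).card, ← sum_const, ← sum_add_distrib]
          apply sum_congr rfl
          intro A hA
          rw [ub A hA, card_insert_of_notMem hx,
            card_insert_of_notMem (hxuP A (mem_union_left _ (mem_sdiff.1 hA).1))]
          push_cast; ring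
      have e2 : ∑ A ∈ X1, (2 * ((u (insert x A)).card : ℝ) - (insert x s).card) =
          ∑ A ∈ X1, (2 * ((uP A).card : ℝ) - s.card) + X1.card := by
        rw [← nsmul_one X1.card, ← sum_const, ← sum_add_distrib]
        apply sum_congr rfl
        intro A hA
        rw [uc A hA, card_insert_of_notMem hx,
            card_insert_of_notMem (hxuP A (mem_union_right _ hA))]
        push_cast; ring
      have e3 : ∑ A ∈ X0 ∪ X1, (2 * ((uP A).card : ℝ) - s.card) =
          ∑ A ∈ X0 \ X1, (2 * ((uP A).card : ℝ) - s.card) +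
            ∑ A ∈ X1, (2 * ((uP A).card : ℝ) - s.card) := by
        rw [← sum_union sdiff_disjoint, sdiff_union_self_eq_union]
      have e4 : ((X0 ∪ X1).card : ℝ) = (X0 \ X1).card + X1.card := by
        rw [← Nat.cast_add, ← card_union_of_disjoint sdiff_disjoint, sdiff_union_self_eq_union]
      have e5 : (X.card : ℝ) = (X0 ∩ X1).card + (X0 ∪ X1).card := by
        rw [← card_slices x X, ← hX0, ← hX1, ← card_union_add_card_inter]; push_cast; ring
      have e6 : ((X0 ∩ X1).card : ℝ) ≤ (X0 ∪ X1).card := by
        exact_mod_cast card_le_card (inter_subset_left.trans subset_union_left)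
      have h7 := split_le (Nat.cast_nonneg ((X0 ∩ X1).card)) e6
      rw [e1, e2, card_insert_of_notMem hx, e5]
      push_cast
      rw [e3] at hP3
      nlinarith

end Pool.Agent.N188.LD
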